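import Pool.Agent.U29.DZ.Stm

/-! Project DZ (helper29), package ORB (helper580): all orbits are finite. -/

set_option autoImplicit false

namespace Pool.Agent.U580.DZ

open Finset MeasureTheory Filter Pool.Agent.U762.RP Pool.Agent.U29.DZ

lemma range_finite {α : Type} (f : α → α) (x : α) {i j : ℕ} (hij : i < j)
    (h : f^[i] x = f^[j] x) : (Set.range fun n : ℕ => f^[n] x).Finite := by
  have key : ∀ n : ℕ, ∃ k < j, f^[n] x = f^[k] x := by
    intro n
    induction n using Nat.strong_induction_on with
    | _ n ih =>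
      rcases lt_or_ge n j with hn | hn
      · exact ⟨n, hn, rfl⟩
      · obtain ⟨k, hk, hk'⟩ := ih (n - j + i) (by omega)
        refine ⟨k, hk, ?_⟩
        rw [← hk', Function.iterate_add_apply, h, ← Function.iterate_add_apply]
        congr 2
        omega
  refine ((Finset.range j).finite_toSet.image fun n => f^[n] x).subset ?_
  rintro _ ⟨n, rfl⟩
  obtain ⟨k, hk, hk'⟩ := key n
  exact ⟨k, by simpa using hk, hk'.symm⟩

theorem t_ORB : S_ORB := by
  intro hI d m r lam X ω hX hXt hfin x
  obtain ⟨f, hf⟩ : ∃ f, f = stp d m r ω := ⟨_, rfl⟩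
  rw [← hf]
  by_contra hinf
  have hinj : Function.Injective fun i : ℕ => f^[i] x := by
    intro i j hij
    by_contra hne
    rcases lt_or_gt_of_ne hne with h | h
    · exact hinf (range_finite f x h hij)
    · exact hinf (range_finite f x h hij.symm)
  clear hinf
  obtain ⟨F, hFd⟩ : ∃ F : Set ℤ, F = {x : ℤ | |(x : ℝ)| < X 0} ∪
    {x : ℤ | X 0 ≤ |(x : ℝ)| ∧ Bad d m r lam X x ω} := ⟨_, rfl⟩
  have hF : F.Finite := by
    rw [hFd]
    refine Set.Finite.union ?_ hfin
    refine (Set.finite_Icc (-⌈X 0⌉) ⌈X 0⌉).subset ?_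
    intro y hy
    have hy' : |(y : ℝ)| < X 0 := hy
    obtain ⟨h1, h2⟩ := abs_lt.1 hy'
    have h3 := Int.le_ceil (X 0)
    constructor
    · have : (-(⌈X 0⌉ : ℤ) : ℝ) ≤ (y : ℝ) := by linarith
      exact_mod_cast this
    · have : (y : ℝ) ≤ (⌈X 0⌉ : ℝ) := by linarith
      exact_mod_cast this
  have hA : ∀ (n : ℕ) (y : ℤ), idx X y = n → (Function.Injective fun i : ℕ => f^[i] y) →
      ∃ L : ℕ, f^[L] y ∈ F := by
    intro n
    induction n using Nat.strong_induction_on with
    | _ n ih =>
      intro y hn hy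
      by_cases hyF : y ∈ F
      · exact ⟨0, hyF⟩
      rw [hFd, Set.mem_union, not_or] at hyF
      obtain ⟨h1, h2⟩ := hyF
      have h1' : X 0 ≤ |(y : ℝ)| := not_lt.1 h1
      have h3 : ¬ Bad d m r lam X y ω := fun h => h2 ⟨h1', h⟩
      unfold Bad at h3
      rw [not_or, hn] at h3
      obtain ⟨h4, h5⟩ := h3
      push Not at h5
      -- the orbit leaves the window
      have hex : ∃ i : ℕ, ¬ (X n ≤ |((f^[i] y : ℤ) : ℝ)| ∧ |((f^[i] y : ℤ) : ℝ)| < X (n + 2)) := by
        by_contra hall
        push Not at hall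
        apply h4
        refine ⟨fun i _ => ?_, fun i j hij _ h => ?_, ?_⟩
        · rw [← hf]
          exact hall i
        · rw [← hf] at h
          exact hij.ne (hy h)
        · show X n ≤ |(((stp d m r ω)^[_] y : ℤ) : ℝ)|
          rw [← hf]
          exact (hall _).1
      classical
      obtain ⟨L, hL⟩ : ∃ L, L = Nat.find hex := ⟨_, rfl⟩
      have hL1 : ¬ (X n ≤ |((f^[L] y : ℤ) : ℝ)| ∧ |((f^[L] y : ℤ) : ℝ)| < X (n + 2)) := by
        rw [hL]; exact Nat.find_spec hex
      have hL2 : ∀ i < L, X n ≤ |((f^[i] y : ℤ) : ℝ)| ∧ |((f^[i] y : ℤ) : ℝ)| < X (n + 2) := by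
        intro i hi
        rw [hL] at hi
        have := Nat.find_min hex hi
        push Not at this
        by_contra hc
        exact hc (by
          by_contra hc'
          exact Nat.find_min hex hi hc')
      have hlow : |((f^[L] y : ℤ) : ℝ)| < X n := by
        by_contra hge
        push Not at hge
        have hup : X (n + 2) ≤ |((f^[L] y : ℤ) : ℝ)| := by
          by_contra hlt
          push Not at hlt
          exact hL1 ⟨hge, hlt⟩
        apply h5 L
        refine ⟨fun i hi => ?_, fun i j hij _ h => ?_, ?_⟩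
        · rw [← hf]
          exact hL2 i hi
        · rw [← hf] at h
          exact hij.ne (hy h)
        · show X (n + 2) ≤ |(((stp d m r ω)^[_] y : ℤ) : ℝ)|
          rw [← hf]
          exact hup
      rcases Nat.eq_zero_or_pos n with h0 | h0
      · refine ⟨L, ?_⟩
        rw [hFd]
        left
        show |((f^[L] y : ℤ) : ℝ)| < X 0
        rw [h0] at hlow
        exact hlow
      · have hidx : idx X (f^[L] y) ≤ n - 1 := by
          refine (hI X hX hXt (f^[L] y)).2.2.2 (n - 1) ?_
          rw [Nat.sub_add_cancel h0]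
          exact hlow
        obtain ⟨L', hL'⟩ := ih (idx X (f^[L] y)) (by omega) (f^[L] y) rfl (by
          intro i j hij
          simp only [← Function.iterate_add_apply] at hij
          have := hy hij
          omega)
        refine ⟨L' + L, ?_⟩
        rw [Function.iterate_add_apply]
        exact hL'
  -- infinitely many visits
  have hB : ∀ n : ℕ, ∃ i : ℕ, n ≤ i ∧ f^[i] x ∈ F := by
    intro n
    obtain ⟨L, hL⟩ := hA _ (f^[n] x) rfl (by
      intro i j hij
      simp only [← Function.iterate_add_apply] at hij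
      have := hinj hij
      omega)
    exact ⟨L + n, by omega, by rw [Function.iterate_add_apply]; exact hL⟩
  have hC : {i : ℕ | f^[i] x ∈ F}.Finite := hF.preimage (hinj.injOn)
  obtain ⟨b, hb⟩ := hC.bddAbove
  obtain ⟨i, hi, hi'⟩ := hB (b + 1)
  have := hb hi'
  omega

end Pool.Agent.U580.DZ
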